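import Mathlib
import Pool.Agent.helper33.Buck.Final

set_option autoImplicit false

open Pool.Agent.helper33.Buck

namespace Pool.Agent.Results.MP_f5a338_an.NoCorner

/-- Let `p > 0` and let `Ω` be any optimal set in the plane for the minimization of the first
buckling eigenvalue among open sets of finite measure and perimeter at most `p` (convexity of `Ω`
is not assumed). Then no boundary point of `Ω` has two distinct supporting lines: if `n₁` and `n₂`
are outward unit normals of half-planes which contain `Ω` and whose boundary lines pass through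
the same boundary point `x` of `Ω`, then `n₁ = n₂`. -/
theorem result (p : ℝ) (hp : 0 < p) (Ω : Set (EuclideanSpace ℝ (Fin 2))) (hΩ : IsOptimal p Ω)
    (x : EuclideanSpace ℝ (Fin 2)) (hx : x ∈ frontier Ω)
    (n₁ n₂ : EuclideanSpace ℝ (Fin 2)) (h₁ : ‖n₁‖ = 1) (h₂ : ‖n₂‖ = 1)
    (hs₁ : ∀ z ∈ Ω, inner ℝ n₁ (z - x) ≤ 0) (hs₂ : ∀ z ∈ Ω, inner ℝ n₂ (z - x) ≤ 0) :
    n₁ = n₂ :=
  no_corner hp hΩ hx h₁ h₂ hs₁ hs₂

end Pool.Agent.Results.MP_f5a338_an.NoCorner
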